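import Mathlib
import Pool.Agent.N437.SQ.Stm

/-!
# Project SQ, leaf F2: few choices hit `B` in `k` layers
-/

set_option autoImplicit false

namespace Pool.Agent.N727.SQ

open Finset Pool.Agent.N437.SQ

theorem card_layer_le {q L : ℕ} (B : Finset (Lay q L)) (i : Fin L) :
    ((univ : Finset (Fin (M q L i))).filter fun x => (⟨i, x⟩ : Lay q L) ∈ B).card ≤
      (B.filter fun b => b.1 = i).card := by
  refine Finset.card_le_card_of_injOn (fun x => (⟨i, x⟩ : Lay q L)) ?_ ?_
  · intro x hx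
    have hx' := (Finset.mem_filter.1 hx).2
    exact Finset.mem_coe.2 (Finset.mem_filter.2 ⟨hx', rfl⟩)
  · intro x _ y _ hxy
    have h := (Sigma.mk.inj_iff.1 hxy).2
    exact eq_of_heq h

theorem card_fixed_le {q L k : ℕ} {I : Finset (Fin L)} {B : Finset (Lay q L)} {r : ℝ}
    (hB : ∀ i ∈ I, ((B.filter fun b => b.1 = i).card : ℝ) ≤ r * M q L i) {J : Finset (Fin L)}
    (hJ : J ∈ I.powersetCard k) :
    (((univ : Finset (Psi q L)).filter fun ψ => ∀ i ∈ J, (⟨i, ψ i⟩ : Lay q L) ∈ B).card : ℝ) ≤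
      r ^ k * Fintype.card (Psi q L) := by
  classical
  obtain ⟨hJI, hJk⟩ := Finset.mem_powersetCard.1 hJ
  let T : ∀ i : Fin L, Finset (Fin (M q L i)) := fun i =>
    if i ∈ J then (univ.filter fun x : Fin (M q L i) => (⟨i, x⟩ : Lay q L) ∈ B) else univ
  have e : ((univ : Finset (Psi q L)).filter fun ψ => ∀ i ∈ J, (⟨i, ψ i⟩ : Lay q L) ∈ B) =
      Fintype.piFinset T := by
    ext ψ
    rw [Finset.mem_filter, Fintype.mem_piFinset]
    constructor
    · rintro ⟨-, h⟩ i
      by_cases hi : i ∈ J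
      · simp only [T, if_pos hi]
        exact Finset.mem_filter.2 ⟨Finset.mem_univ _, h i hi⟩
      · simp only [T, if_neg hi]
        exact Finset.mem_univ _
    · intro h
      refine ⟨Finset.mem_univ _, fun i hi => ?_⟩
      have h1 := h i
      simp only [T, if_pos hi] at h1
      exact (Finset.mem_filter.1 h1).2
  have hM : (Fintype.card (Psi q L) : ℝ) = ∏ i : Fin L, (M q L i : ℝ) := by
    rw [Fintype.card_pi]
    push_cast
    exact Finset.prod_congr rfl fun i _ => by rw [Fintype.card_fin]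
  rw [e, Fintype.card_piFinset, hM]
  push_cast
  have hb : ∀ i : Fin L, ((T i).card : ℝ) ≤ (if i ∈ J then r else 1) * (M q L i : ℝ) := by
    intro i
    by_cases hi : i ∈ J
    · simp only [T, if_pos hi]
      refine le_trans ?_ (hB i (hJI hi))
      exact_mod_cast card_layer_le B i
    · simp only [T, if_neg hi, one_mul]
      rw [Finset.card_univ, Fintype.card_fin]
  refine (Finset.prod_le_prod (fun i _ => Nat.cast_nonneg _) fun i _ => hb i).trans ?_
  rw [Finset.prod_mul_distrib]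
  have hr' : ∏ i : Fin L, (if i ∈ J then r else 1) = r ^ k := by
    rw [Finset.prod_ite_mem, Finset.univ_inter, Finset.prod_const, hJk]
  rw [hr']

theorem t_F2 : S_F2 := by
  intro q L k I B r _ hr hB _
  classical
  have hsub : ((univ : Finset (Psi q L)).filter fun ψ => k ≤ hits I B ψ) ⊆
      (I.powersetCard k).biUnion fun J =>
        (univ : Finset (Psi q L)).filter fun ψ => ∀ i ∈ J, (⟨i, ψ i⟩ : Lay q L) ∈ B := by
    intro ψ hψ
    have h1 := (Finset.mem_filter.1 hψ).2
    obtain ⟨J, hJ, hJk⟩ := Finset.exists_subset_card_eq h1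
    refine Finset.mem_biUnion.2 ⟨J, Finset.mem_powersetCard.2 ⟨fun i hi =>
      (Finset.mem_filter.1 (hJ hi)).1, hJk⟩, Finset.mem_filter.2 ⟨Finset.mem_univ _, fun i hi =>
      (Finset.mem_filter.1 (hJ hi)).2⟩⟩
  have h2 : (((univ : Finset (Psi q L)).filter fun ψ => k ≤ hits I B ψ).card : ℝ) ≤
      ∑ J ∈ I.powersetCard k,
        (((univ : Finset (Psi q L)).filter fun ψ => ∀ i ∈ J, (⟨i, ψ i⟩ : Lay q L) ∈ B).card : ℝ) := by
    exact_mod_cast (Finset.card_le_card hsub).trans Finset.card_biUnion_le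
  have h3 : ((I.powersetCard k).card : ℝ) ≤ 2 ^ I.card := by
    rw [Finset.card_powersetCard]
    exact_mod_cast Nat.choose_le_two_pow _ _
  calc _ ≤ ∑ J ∈ I.powersetCard k, r ^ k * (Fintype.card (Psi q L) : ℝ) :=
        h2.trans (Finset.sum_le_sum fun J hJ => card_fixed_le hB hJ)
    _ = ((I.powersetCard k).card : ℝ) * (r ^ k * (Fintype.card (Psi q L) : ℝ)) := by
        rw [Finset.sum_const, nsmul_eq_mul]
    _ ≤ 2 ^ I.card * (r ^ k * (Fintype.card (Psi q L) : ℝ)) :=
        mul_le_mul_of_nonneg_right h3 (by positivity)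
    _ = _ := by ring

end Pool.Agent.N727.SQ
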